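import Pool.Agent.helper88.T7.SpecR7

set_option autoImplicit false

namespace Pool.Agent.T7

open Finset NumberField Pool.Agent.helper3.FT Pool.Agent.helper47.RA Pool.Agent.T5 Pool.Agent.T6
open scoped nonZeroDivisors

/-- `0 < c0 < 1` -/
theorem ZPC_c0 : 0 < c0 ∧ c0 < 1 := by
  have hpi := Real.pi_gt_three
  have hpi2 := Real.pi_lt_four
  have hs : (0 : ℝ) < √2 := by positivity
  have hs2 : √2 * √2 = 2 := Real.mul_self_sqrt (by norm_num)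
  have hs1 : 1 < √2 := by nlinarith
  have h1 : 0 < 1 - 1 / √2 := by
    rw [sub_pos, div_lt_one hs]
    exact hs1
  have hs3 : √2 < 3 / 2 := by nlinarith
  have h2 : 1 - 1 / √2 ≤ 1 / 3 := by
    have h : 2 / 3 ≤ 1 / √2 := by
      rw [le_div_iff₀ hs]
      linarith
    linarith
  have h3 : (0 : ℝ) < 6 / Real.pi ^ 2 := by positivity
  have h4 : 6 / Real.pi ^ 2 ≤ 2 / 3 := by
    rw [div_le_iff₀ (by positivity)]
    nlinarith
  have h5 : (6 / Real.pi ^ 2) ^ 2 ≤ (2 / 3) ^ 2 := pow_le_pow_left₀ h3.le h4 2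
  have h6 : Real.pi / 2 * (1 - 1 / √2) ≤ 2 * (1 / 3) :=
    mul_le_mul (by linarith) h2 h1.le (by norm_num)
  constructor
  · rw [c0]
    positivity
  · rw [c0]
    calc Real.pi / 2 * (1 - 1 / √2) * (6 / Real.pi ^ 2) ^ 2 ≤ 2 * (1 / 3) * (2 / 3) ^ 2 :=
          mul_le_mul h6 h5 (by positivity) (by norm_num)
      _ < 1 := by norm_num

/-- telescoping in one field -/
theorem ZPC_tel (h2 : ZCP_stmt) {K : Type} [Field K] [NumberField K] (Q : QF K) (hf : Module.finrank ℚ K = 2)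
    (hD : Q.D < 0) (A Y : ℝ) (hY : 0 < Y) (h4 : 4 * Y ^ 2 < -(Q.D : ℝ)) (J : ℕ) :
    ((CU7 K A Y).ncard : ℝ) = ∑ j ∈ range J, ((PA7 Q A (Y / 2 ^ j)).ncard : ℝ) + ((CU7 K A (Y / 2 ^ J)).ncard : ℝ) := by
  induction J with
  | zero => simp
  | succ J ih =>
    have hp : (1 : ℝ) ≤ 2 ^ J := one_le_pow₀ (by norm_num)
    have hYJ : 0 < Y / 2 ^ J := by positivity
    have hle : Y / 2 ^ J ≤ Y := div_le_self hY.le hp
    have h5 : 4 * (Y / 2 ^ J) ^ 2 < -(Q.D : ℝ) := by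
      have : (Y / 2 ^ J) ^ 2 ≤ Y ^ 2 := pow_le_pow_left₀ hYJ.le hle 2
      linarith
    have h6 := (h2 K Q hf hD A (Y / 2 ^ J) hYJ).2 h5
    have h7 : Y / 2 ^ J / 2 = Y / 2 ^ (J + 1) := by
      rw [pow_succ, div_div]
    rw [h7] at h6
    rw [ih, Finset.sum_range_succ, h6]
    push_cast
    ring

theorem ZPC_sum (h2 : ZCP_stmt) (N A Y : ℝ) (hY : 0 < Y) (h4 : 4 * Y ^ 2 ≤ N / 2) (J : ℕ) :
    TD7 (fU A Y) N = ∑ j ∈ range J, TD7 (fP A (Y / 2 ^ j)) N + TD7 (fU A (Y / 2 ^ J)) N := by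
  unfold TD7
  rw [Finset.sum_comm, ← Finset.sum_add_distrib]
  refine Finset.sum_congr rfl fun D hD => ?_
  obtain ⟨E, hφ, -, -, hQ, hD0, -, hN, -⟩ := ZL_fld N D hD
  simp only [hφ]
  unfold fU fP
  refine ZPC_tel h2 E.Q E.fin ?_ A Y hY ?_ J
  · rw [hQ]
    exact hD0
  · rw [hQ]
    linarith

theorem ZPC_le (N A Y : ℝ) : TD7 (fU A Y) N ≤ TD7 (fC Y) N := by
  unfold TD7
  refine Finset.sum_le_sum fun D hD => ?_
  obtain ⟨E, hφ, -, -, -, -, -, -, -⟩ := ZL_fld N D hD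
  simp only [hφ]
  unfold fU fC
  have : (CU7 E.K A Y).ncard ≤ (CLS E.K Y).ncard :=
    Set.ncard_le_ncard (fun c hc => hc.1) (Set.toFinite _)
  exact_mod_cast this

theorem ZPC_nonneg (N A Y : ℝ) : 0 ≤ TD7 (fU A Y) N := by
  unfold TD7
  refine Finset.sum_nonneg fun D hD => ?_
  obtain ⟨E, hφ, -, -, -, -, -, -, -⟩ := ZL_fld N D hD
  simp only [hφ]
  unfold fU
  exact Nat.cast_nonneg _

theorem ZPC_geo (J : ℕ) : ∑ j ∈ range J, (1 : ℝ) / 2 ^ j = 2 - 2 / 2 ^ J := by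
  induction J with
  | zero => norm_num
  | succ n ih =>
    rw [Finset.sum_range_succ, ih]
    have h2 : (0 : ℝ) < 2 ^ n := by positivity
    rw [pow_succ]
    field_simp
    ring

/-- **ZPC** -/
theorem ZPC (h1 : ZPS_stmt) (h2 : ZCP_stmt) (h3 : ZTC_stmt) : ZPC_stmt := by
  intro ε hε
  obtain ⟨A₀, hA₀, H⟩ := h1 (ε / 8) (by positivity)
  obtain ⟨C, N₂, hC, H3⟩ := h3
  obtain ⟨hc0, hc1⟩ := ZPC_c0
  refine ⟨A₀, hA₀, fun A hA => ?_⟩
  obtain ⟨κ₁, N₁, hκ₁, H1⟩ := H A hA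
  obtain ⟨J, hJ⟩ := pow_unbounded_of_one_lt ((C + 2) * 4 / ε) (one_lt_two : (1 : ℝ) < 2)
  have hJ0 : (0 : ℝ) < 2 ^ J := by positivity
  have hJ' : (C + 2) / 2 ^ J ≤ ε / 4 := by
    rw [div_lt_iff₀ hε] at hJ
    rw [div_le_iff₀ hJ0]
    linarith
  refine ⟨min κ₁ (1 / 3), max (max N₁ N₂) (max 1 ((2 ^ J) ^ (200 : ℝ))), lt_min hκ₁ (by norm_num), fun N Y hN hY1 hY2 => ?_⟩
  have hN1 : N₁ ≤ N := le_trans (le_trans (le_max_left _ _) (le_max_left _ _)) hN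
  have hN2 : N₂ ≤ N := le_trans (le_trans (le_max_right _ _) (le_max_left _ _)) hN
  have hN3 : 1 ≤ N := le_trans (le_trans (le_max_left _ _) (le_max_right _ _)) hN
  have hN4 : ((2 : ℝ) ^ J) ^ (200 : ℝ) ≤ N := le_trans (le_trans (le_max_right _ _) (le_max_right _ _)) hN
  have hNp : 0 < N := by linarith
  have hsN : 0 < √N := Real.sqrt_pos.mpr hNp
  have hY0 : 0 < Y := lt_of_lt_of_le (by positivity) hY1
  have hYk : Y ≤ κ₁ * √N := le_trans hY2 (mul_le_mul_of_nonneg_right (min_le_left _ _) hsN.le)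
  have hY3 : Y ≤ 1 / 3 * √N := le_trans hY2 (mul_le_mul_of_nonneg_right (min_le_right _ _) hsN.le)
  have hss : √N ^ 2 = N := Real.sq_sqrt hNp.le
  have h4 : 4 * Y ^ 2 ≤ N / 2 := by
    have : Y ^ 2 ≤ (1 / 3 * √N) ^ 2 := pow_le_pow_left₀ hY0.le hY3 2
    rw [mul_pow, hss] at this
    linarith
  have h5 : (2 : ℝ) ^ J ≤ N ^ (0.005 : ℝ) := by
    have h := Real.rpow_le_rpow (by positivity) hN4 (by norm_num : (0 : ℝ) ≤ 0.005)
    rw [← Real.rpow_mul (by positivity)] at h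
    have h' : (200 : ℝ) * 0.005 = 1 := by norm_num
    rw [h', Real.rpow_one] at h
    exact h
  have h6 : N ^ (0.395 : ℝ) * 2 ^ J ≤ Y := by
    refine le_trans ?_ hY1
    have h : N ^ (0.395 : ℝ) * 2 ^ J ≤ N ^ (0.395 : ℝ) * N ^ (0.005 : ℝ) :=
      mul_le_mul_of_nonneg_left h5 (by positivity)
    rw [← Real.rpow_add hNp] at h
    have h' : (0.395 : ℝ) + 0.005 = 2 / 5 := by norm_num
    rw [h'] at h
    exact h
  have h7 : N ^ (0.395 : ℝ) ≤ Y / 2 ^ J := by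
    rw [le_div_iff₀ hJ0]
    exact h6
  have h8 : N ^ (0.39 : ℝ) ≤ N ^ (0.395 : ℝ) := Real.rpow_le_rpow_of_exponent_le hN3 (by norm_num)
  set S : ℝ := Y * √N with hS
  have hS0 : 0 < S := by positivity
  -- the error terms
  have h9 : ∀ j ∈ range J, |TD7 (fP A (Y / 2 ^ j)) N - c0 * (S * (1 / 2 ^ j))| ≤ ε / 8 * (S * (1 / 2 ^ j)) := by
    intro j hj
    have hjJ : j < J := Finset.mem_range.mp hj
    have hjp : (0 : ℝ) < 2 ^ j := by positivity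
    have hj1 : (1 : ℝ) ≤ 2 ^ j := one_le_pow₀ (by norm_num)
    have hj2 : (2 : ℝ) ^ j ≤ 2 ^ J := pow_le_pow_right₀ (by norm_num) hjJ.le
    have a1 : Y / 2 ^ J ≤ Y / 2 ^ j := div_le_div_of_nonneg_left hY0.le hjp hj2
    have a2 : Y / 2 ^ j ≤ Y := div_le_self hY0.le hj1
    have a3 := H1 N (Y / 2 ^ j) hN1 (by linarith) (by linarith)
    have a4 : Y / 2 ^ j * √N = S * (1 / 2 ^ j) := by
      rw [hS]
      ring
    rw [a4] at a3
    exact a3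
  have h10 : |∑ j ∈ range J, (TD7 (fP A (Y / 2 ^ j)) N - c0 * (S * (1 / 2 ^ j)))| ≤ ε / 4 * S := by
    refine le_trans (Finset.abs_sum_le_sum_abs _ _) (le_trans (Finset.sum_le_sum h9) ?_)
    rw [← Finset.mul_sum, ← Finset.mul_sum]
    have := ZL_geo J
    have h' : S * ∑ j ∈ range J, (1 : ℝ) / 2 ^ j ≤ S * 2 := mul_le_mul_of_nonneg_left this hS0.le
    have h'' : ε / 8 * (S * ∑ j ∈ range J, (1 : ℝ) / 2 ^ j) ≤ ε / 8 * (S * 2) := mul_le_mul_of_nonneg_left h' (by positivity)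
    linarith
  rw [Finset.sum_sub_distrib, ← Finset.mul_sum, ← Finset.mul_sum, ZPC_geo J] at h10
  have h11 : TD7 (fU A (Y / 2 ^ J)) N ≤ C * (S / 2 ^ J) := by
    refine le_trans (ZPC_le N A (Y / 2 ^ J)) ?_
    have hj1 : (1 : ℝ) ≤ 2 ^ J := one_le_pow₀ (by norm_num)
    have a2 : Y / 2 ^ J ≤ Y := div_le_self hY0.le hj1
    have a3 := H3 N (Y / 2 ^ J) hN2 h7 (by nlinarith)
    have a4 : Y / 2 ^ J * √N = S / 2 ^ J := by
      rw [hS]
      ring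
    rw [a4] at a3
    exact a3
  have h12 := ZPC_nonneg N A (Y / 2 ^ J)
  rw [ZPC_sum h2 N A Y hY0 h4 J]
  have h13 : (C + 2) / 2 ^ J * S ≤ ε / 4 * S := mul_le_mul_of_nonneg_right hJ' hS0.le
  have h14 : (C + 2) / 2 ^ J * S = C * (S / 2 ^ J) + 2 * (S / 2 ^ J) := by ring
  have h15 : 0 < S / 2 ^ J := by positivity
  have h16 : c0 * (S * (2 - 2 / 2 ^ J)) = 2 * c0 * S - 2 * c0 * (S / 2 ^ J) := by ring
  rw [h16] at h10
  have h17 : c0 * (S / 2 ^ J) ≤ S / 2 ^ J := by nlinarith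
  have h18 : 0 ≤ c0 * (S / 2 ^ J) := by positivity
  have h19 : 0 ≤ C * (S / 2 ^ J) := by positivity
  have h20 : 0 < ε * S := by positivity
  rw [abs_le] at h10 ⊢
  constructor
  · linarith [h10.1]
  · linarith [h10.2]

end Pool.Agent.T7
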